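import Pool.Agent.H25.Multi

open Finset Filter Topology Pool.Agent.H25.Multi

namespace Pool.Agent.Results.MP_2e8272_nt.Large

/-- Partitions of `n` whose parts are at most 7 or multiples of 3. -/
def pSharp (n : ℕ) : ℕ := #{l : n.Partition | ∀ a ∈ l.parts, a ≤ 7 ∨ 3 ∣ a}

theorem result : ∃ N, ∀ n, N ≤ n → M n < pSharp n :=
  eventually_atTop.1 (lt_count (fun a => a ≤ 7 ∨ 3 ∣ a) (by simp) fun a => .inr ⟨a, rfl⟩)

end Pool.Agent.Results.MP_2e8272_nt.Large
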